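import Pool.Agent.Work.MP_5c86b6_an.Lac.Main

open Polynomial

namespace Pool.Agent.Results.MP_5c86b6_an.AllNearOne

/-- For every `ε > 0` there is a symmetric polynomial hypergroup on the nonnegative integers all
of whose Haar weights `h n = (a 0 ⋯ a (n - 1)) / (c 1 ⋯ c n)` are smaller than `1 + ε`. -/
theorem result (ε : ℝ) (hε : 0 < ε) : ∃ (a b c : ℕ → ℝ) (P : ℕ → ℝ[X]),
    (∀ n, 0 < a n) ∧ (∀ n, b n = 0) ∧ (∀ n, 1 ≤ n → 0 < c n) ∧
    a 0 + b 0 = 1 ∧ (∀ n, 1 ≤ n → a n + b n + c n = 1) ∧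
    P 0 = 1 ∧ P 1 = C (1 / a 0) * (X - C (b 0)) ∧
    (∀ n, 1 ≤ n → X * P n = C (a n) * P (n + 1) + C (b n) * P n + C (c n) * P (n - 1)) ∧
    (∀ m n, ∃ g : ℕ → ℝ, (∀ k, 0 ≤ g k) ∧
      P m * P n = ∑ k ∈ Finset.Icc (Nat.dist m n) (m + n), C (g k) * P k) ∧
    ∀ n, (∏ k ∈ Finset.range n, a k) / (∏ k ∈ Finset.Icc 1 n, c k) < 1 + ε := by
  open Pool.Agent.Work.MP_5c86b6_an.Lac in
  obtain ⟨l, h1, h2, h3, h4⟩ := exists_monic hε
  have hC : ∀ k, C (u l k) * C (u l k)⁻¹ = (1 : ℝ[X]) := fun k => by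
    rw [← map_mul, mul_inv_cancel₀ (h2 k).ne', map_one]
  refine ⟨fun n => u l (n + 1) / u l n, fun _ => 0, fun n => l n * u l (n - 1) / u l n,
    fun n => C (u l n)⁻¹ * mp l n, fun n => div_pos (h2 _) (h2 _), fun _ => rfl,
    fun n hn => div_pos (mul_pos (h1 n hn) (h2 _)) (h2 _), by simp, fun n hn => ?_, by simp,
    by simp, fun n hn => ?_, fun m n => ⟨fun k => (u l m)⁻¹ * (u l n)⁻¹ * E l m n k * u l k,
      fun k => ?_, ?_⟩, fun n => ?_⟩
  · obtain ⟨n, rfl⟩ := Nat.exists_eq_add_of_le' hn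
    have := h2 (n + 1)
    simp only [u_add_two, Nat.add_sub_cancel]
    field_simp
    ring
  · obtain ⟨n, rfl⟩ := Nat.exists_eq_add_of_le' hn
    simp only [Nat.add_sub_cancel, div_eq_mul_inv, map_mul, map_zero]
    rw [mul_left_comm, X_mul_mp]
    linear_combination (-C (u l (n + 1))⁻¹ * mp l (n + 2)) * hC (n + 2) -
      (C (u l (n + 1))⁻¹ * C (l (n + 1)) * mp l n) * hC n
  · have := h2 m
    have := h2 n
    have := h2 k
    have := h3 m n k
    positivity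
  · simp only [map_mul]
    rw [mul_mul_mul_comm, expand_Icc, Finset.mul_sum]
    refine Finset.sum_congr rfl fun k _ => ?_
    linear_combination (-C (u l m)⁻¹ * C (u l n)⁻¹ * C (E l m n k) * mp l k) * hC k
  · rw [hw_eq h1 h2]
    exact h4 n

end Pool.Agent.Results.MP_5c86b6_an.AllNearOne
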