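import Pool.Agent.Work.MP_5c86b6_an.Jt.Six

open Polynomial

namespace Pool.Agent.Results.MP_5c86b6_an.SymmetricRange

/-- The exact set of pairs `(h 1, h 2)` of Haar weights of symmetric polynomial hypergroups. -/
theorem result (s t : ℝ) : (∃ (a b c : ℕ → ℝ) (P : ℕ → ℝ[X]),
    (∀ n, 0 < a n) ∧ (∀ n, b n = 0) ∧ (∀ n, 1 ≤ n → 0 < c n) ∧
    a 0 + b 0 = 1 ∧ (∀ n, 1 ≤ n → a n + b n + c n = 1) ∧
    P 0 = 1 ∧ P 1 = C (1 / a 0) * (X - C (b 0)) ∧
    (∀ n, 1 ≤ n → X * P n = C (a n) * P (n + 1) + C (b n) * P n + C (c n) * P (n - 1)) ∧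
    (∀ m n, ∃ g : ℕ → ℝ, (∀ k, 0 ≤ g k) ∧
      P m * P n = ∑ k ∈ Finset.Icc (Nat.dist m n) (m + n), C (g k) * P k) ∧
    a 0 / c 1 = s ∧ a 0 * a 1 / (c 1 * c 2) = t) ↔
    (1 < s ∧ s < 2 ∧ s < t) ∨ (s = 2 ∧ 2 ≤ t) ∨
      (2 < s ∧ s - 1 < t ∧ 0 < t ^ 2 - (s + 1) * t + s * (s - 1)) := by
  open Pool.Agent.Work.MP_5c86b6_an.Jt in
  refine Iff.trans (b := ∃ a c : ℕ → ℝ, IsHyp a (fun _ => 0) c ∧ a 0 / c 1 = s ∧
    a 0 * a 1 / (c 1 * c 2) = t) ⟨?_, ?_⟩ ⟨?_, fun H => ?_⟩
  · rintro ⟨a, b, c, P, h1, h2, h3, h4, h5, h6, h7, h8, h9, h10⟩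
    obtain rfl : b = fun _ => 0 := funext h2
    exact ⟨a, c, ⟨h1, fun _ => le_rfl, h3, h4, h5, P, h6, h7, h8, h9⟩, h10⟩
  · rintro ⟨a, c, ⟨h1, -, h3, h4, h5, P, h6, h7, h8, h9⟩, h10⟩
    exact ⟨a, _, c, P, h1, fun _ => rfl, h3, h4, h5, h6, h7, h8, h9, h10⟩
  · rintro ⟨a, c, h, h1, h2⟩
    obtain ⟨a0, a1, p, q, -, -⟩ := h.facts
    have p1 := p 1 le_rfl
    have p2 := p 2 (by omega)
    have q1 := q 1 le_rfl
    have q2 := q 2 (by omega)
    rw [a0, div_eq_iff p1.ne'] at h1
    rw [a0, a1, div_eq_iff (mul_pos p1 p2).ne'] at h2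
    have e : t * c 2 = s - 1 := by linear_combination (-s) * h2 + (t * c 2 + 1) * h1
    have s0 : 0 < s := by
      by_contra h5
      have := mul_nonneg (neg_nonneg.2 (not_lt.1 h5)) p1.le
      linarith
    have hs : 1 < s := by have := mul_lt_mul_of_pos_left q1 s0; linarith
    have t0 : 0 < t := by
      by_contra h5
      have := mul_nonneg (neg_nonneg.2 (not_lt.1 h5)) p2.le
      linarith
    rcases lt_trichotomy s 2 with h3 | h3 | h3
    · have := mul_lt_mul_of_pos_right (h.lt_of_half_lt (by nlinarith)) s0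
      exact Or.inl ⟨hs, h3, lt_of_mul_lt_mul_right (a := c 2) (by linarith) p2.le⟩
    · have := h.le_of_eq_half (by rw [h3] at h1; linarith)
      rw [h3] at e
      exact Or.inr (Or.inl ⟨h3, le_of_mul_le_mul_right (a := c 2) (by linarith) p2⟩)
    · have h4 := mul_lt_mul_of_pos_left (h.curve (by nlinarith)) s0
      have h5 := mul_lt_mul_of_pos_left q2 t0
      refine Or.inr (Or.inr ⟨h3, by linarith, ?_⟩)
      have h6 : (t ^ 2 - (s + 1) * t + s * (s - 1)) * c 2 =
          t * (s * (1 - c 2 + c 2 ^ 2) - s * (c 1 * (1 + c 2))) := by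
        linear_combination (t - s * c 2) * e - (t * (1 + c 2)) * h1
      refine (mul_pos_iff_of_pos_right p2).1 ?_
      rw [h6]
      exact mul_pos t0 (by linarith)
  · have hs : 1 < s := by rcases H with h | h | h <;> linarith [h.1]
    have s0 : 0 < s := by linarith
    have s1 : 0 < s - 1 := by linarith
    have four : s < t → (s - 1) * (2 * s - 1) < s * t → ∃ a c : ℕ → ℝ, IsHyp a (fun _ => 0) c ∧
        a 0 / c 1 = s ∧ a 0 * a 1 / (c 1 * c 2) = t := fun h1 h2 => by
      have t0 : 0 < t := by linarith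
      refine realise (n := 2) le_rfl (b4_good (x := 1 / s) (y := (s - 1) / t) (by positivity)
        (by positivity) ?_ ?_) hs t0 (by simp [b4]) (by simp [b4])
      · rw [div_add_div _ _ s0.ne' t0.ne', div_lt_one (by positivity)]
        nlinarith
      · rw [← sub_pos, show 1 - (s - 1) / t - (1 - 1 / s) * ((s - 1) / t) =
          (s * t - (s - 1) * (2 * s - 1)) / (s * t) by field_simp; ring]
        exact div_pos (by linarith) (by positivity)
    rcases H with ⟨-, h, ht⟩ | ⟨h, ht⟩ | ⟨h, h1, hq⟩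
    · exact four ht (by nlinarith)
    · rcases eq_or_lt_of_le ht with rfl | h2
      · exact ⟨_, _, cheb, by rw [h]; norm_num, by norm_num⟩
      · exact four (by linarith) (by rw [h]; linarith)
    · have t0 : 0 < t := by linarith
      have x1 : 1 / s < 1 / 2 := one_div_lt_one_div_of_lt (by norm_num) h
      have x0 : 0 < 1 / s := by positivity
      have y1 : (s - 1) / t < 1 := by rw [div_lt_one t0]; exact h1
      have y0 : 0 < (s - 1) / t := by positivity
      have e1 : (1 - 1 / s) * ((s - 1) / t) - 1 / s = ((s - 1) ^ 2 - t) / (s * t) := by field_simp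
      rcases le_or_gt t ((s - 1) ^ 2) with h2 | h2
      · have z0 : 0 < (1 - 1 / s) * (1 - (s - 1) / t) := mul_pos (by linarith) (by linarith)
        refine realise (n := 3) (by omega) (b5_good (x := 1 / s) (y := (s - 1) / t)
          (z := (1 - 1 / s) * (1 - (s - 1) / t) / 2) x0 (by linarith) y1 ?_ (by positivity)
          (by nlinarith) (by linarith)) hs t0 (by simp [b5]) (by simp [b5])
        rw [← sub_nonneg, e1]
        exact div_nonneg (by linarith) (by positivity)
      rcases lt_or_ge s t with h3 | h3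
      · refine four h3 ?_
        rcases le_total (s ^ 2 - 3 * s + 1) 0 with h4 | h4 <;> nlinarith
      refine realise (n := 4) (by omega) (b6_good (x := 1 / s) (y := (s - 1) / t) x1 ?_ ?_ ?_ y1)
        hs t0 (by simp [b6]) (by simp [b6])
      · rw [← sub_nonneg, show 1 / s - (1 - (s - 1) / t) = (s - 1) * (s - t) / (s * t) by
          field_simp; ring]
        exact div_nonneg (mul_nonneg s1.le (by linarith)) (by positivity)
      · rw [← sub_neg, e1]
        exact div_neg_of_neg_of_pos (by linarith) (by positivity)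
      · rw [← sub_pos, show (1 - 1 / s) * ((s - 1) / t) + (1 - (s - 1) / t) * (1 - (s - 1) / t) -
          1 / s = (s - 1) * (t ^ 2 - (s + 1) * t + s * (s - 1)) / (s * t ^ 2) by field_simp; ring]
        exact div_pos (mul_pos s1 hq) (by positivity)

end Pool.Agent.Results.MP_5c86b6_an.SymmetricRange
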